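import Pool.Agent.H37.CNZ.Stmts

/-!
# Row CMA of the board `cnz` (helper70): the compositum of two covers
-/

set_option autoImplicit false

namespace Pool.CND.CMAx

open Polynomial

/-- the homomorphism `k(X) → L`, `X ↦ t` -/
theorem exists_hom {k L : Type} [Field k] [Field L] [Algebra k L] (t : L)
    (ht : Transcendental k t) : ∃ v : RatFunc k →ₐ[k] L, v RatFunc.X = t := by
  have hinj : Function.Injective (Polynomial.aeval (R := k) t) :=
    transcendental_iff_injective.1 ht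
  have hle : (nonZeroDivisors k[X]) ≤ (nonZeroDivisors L).comap (Polynomial.aeval (R := k) t) := by
    intro q hq
    have hq0 : q ≠ 0 := nonZeroDivisors.ne_zero hq
    rw [Submonoid.mem_comap]
    apply mem_nonZeroDivisors_of_ne_zero
    intro h
    exact hq0 (hinj (by rw [h, map_zero]))
  refine ⟨RatFunc.liftAlgHom (Polynomial.aeval (R := k) t) hle, ?_⟩
  have h := RatFunc.liftAlgHom_apply_div (φ := Polynomial.aeval (R := k) t) hle
    (Polynomial.X : k[X]) 1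
  rw [map_one, map_one, div_one, div_one, RatFunc.algebraMap_X, Polynomial.aeval_X] at h
  exact h

theorem hom_ext {k L : Type} [Field k] [Field L] [Algebra k L] (v w : RatFunc k →ₐ[k] L)
    (h : v RatFunc.X = w RatFunc.X) : v = w := by
  refine IsLocalization.algHom_ext (nonZeroDivisors k[X]) (A := k[X]) ?_
  apply Polynomial.algHom_ext
  rw [← RatFunc.algebraMap_X] at h
  exact h

theorem range_hom {k L : Type} [Field k] [Field L] [Algebra k L] (v : RatFunc k →ₐ[k] L) :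
    v.fieldRange = IntermediateField.adjoin k {v RatFunc.X} := by
  rw [AlgHom.fieldRange_eq_map, ← RatFunc.adjoin_X, IntermediateField.adjoin_map,
    Set.image_singleton]

/-- embedding `L₂` in an algebraically closed field -/
theorem exists_emb {F L Ω : Type} [Field F] [Field L] [Field Ω] [IsAlgClosed Ω] (u : F →+* L)
    (hu : ∀ y : L, u.IsIntegralElem y) (v : F →+* Ω) : ∃ j : L →+* Ω, j.comp u = v := by
  let := u.toAlgebra
  let := v.toAlgebra
  have : Algebra.IsAlgebraic F L := ⟨fun y => IsIntegral.isAlgebraic (hu y)⟩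
  exact ⟨(IsAlgClosed.lift : L →ₐ[F] Ω).toRingHom, AlgHom.comp_algebraMap _⟩

/-- a faithful action of a finite group with fixed field `k(t)` -/
theorem gal {k L G : Type} [Field k] [Field L] [Algebra k L] [Group G] [Finite G]
    (ρ : G →* (L ≃ₐ[k] L)) (K : Type) [Field K] [Algebra K L] (hinj : Function.Injective ρ)
    (hfix : ∀ x : L, (∀ g : G, ρ g x = x) ↔ ∃ c : K, algebraMap K L c = x) :
    IsGalois K L ∧ FiniteDimensional K L ∧
      ∃ r : G ≃* (L ≃ₐ[K] L), ∀ (g : G) (y : L), r g y = ρ g y := by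
  let : MulSemiringAction G L := MulSemiringAction.compHom L ρ
  have hsmul : ∀ (g : G) (y : L), g • y = ρ g y := fun g y => rfl
  have : IsGaloisGroup G K L := by
    refine ⟨⟨fun {g h} hgh => hinj (AlgEquiv.ext fun y => ?_)⟩, ⟨fun g c y => ?_⟩, ⟨fun x hx => ?_⟩⟩
    · exact hgh y
    · rw [hsmul, hsmul, Algebra.smul_def, Algebra.smul_def, map_mul,
        (hfix (algebraMap K L c)).2 ⟨c, rfl⟩ g]
    · exact (hfix x).1 hx
  refine ⟨IsGaloisGroup.isGalois G K L, IsGaloisGroup.finiteDimensional G K L,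
    IsGaloisGroup.mulEquivAlgEquiv G K L, fun g y => rfl⟩

/-- the compositum inside a Galois extension -/
theorem core {k K L₁ L₂ L G₁ G₂ : Type} [Field k] [Field K] [Field L₁] [Field L₂] [Field L]
    [Algebra k K] [Algebra k L] [Algebra K L₁] [Algebra K L₂] [Algebra K L] [IsScalarTower k K L]
    [Group G₁] [Group G₂] [Normal K L₁] [Normal K L₂] [IsGalois K L] (j₁ : L₁ →ₐ[K] L)
    (j₂ : L₂ →ₐ[K] L) (r₁ : G₁ ≃* (L₁ ≃ₐ[K] L₁)) (r₂ : G₂ ≃* (L₂ ≃ₐ[K] L₂))
    (hgen : j₁.fieldRange ⊔ j₂.fieldRange = ⊤) :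
    ∃ (Γ : Subgroup (G₁ × G₂)) (ρ : Γ →* (L ≃ₐ[k] L)), Function.Injective ρ ∧
      (∀ (γ : Γ) (y : L₁), ρ γ (j₁ y) = j₁ (r₁ (γ : G₁ × G₂).1 y)) ∧
      (∀ (γ : Γ) (y : L₂), ρ γ (j₂ y) = j₂ (r₂ (γ : G₁ × G₂).2 y)) ∧
      (∀ g : G₁, ∃ γ : Γ, (γ : G₁ × G₂).1 = g) ∧ (∀ g : G₂, ∃ γ : Γ, (γ : G₁ × G₂).2 = g) ∧
      (∀ z : L, (∀ γ : Γ, (γ : G₁ × G₂).1 = 1 → ρ γ z = z) → ∃ y : L₁, z = j₁ y) ∧
      (∀ z : L, (∀ γ : Γ, (γ : G₁ × G₂).2 = 1 → ρ γ z = z) → ∃ y : L₂, z = j₂ y) := by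
  let a₁ : Algebra L₁ L := j₁.toRingHom.toAlgebra
  let a₂ : Algebra L₂ L := j₂.toRingHom.toAlgebra
  have : IsScalarTower K L₁ L := IsScalarTower.of_algebraMap_eq fun c => (j₁.commutes c).symm
  have : IsScalarTower K L₂ L := IsScalarTower.of_algebraMap_eq fun c => (j₂.commutes c).symm
  let R₁ : (L ≃ₐ[K] L) →* (L₁ ≃ₐ[K] L₁) := AlgEquiv.restrictNormalHom L₁
  let R₂ : (L ≃ₐ[K] L) →* (L₂ ≃ₐ[K] L₂) := AlgEquiv.restrictNormalHom L₂
  have hR₁ : ∀ (σ : L ≃ₐ[K] L) (y : L₁), σ (j₁ y) = j₁ (R₁ σ y) := fun σ y =>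
    (AlgEquiv.restrictNormal_commutes σ L₁ y).symm
  have hR₂ : ∀ (σ : L ≃ₐ[K] L) (y : L₂), σ (j₂ y) = j₂ (R₂ σ y) := fun σ y =>
    (AlgEquiv.restrictNormal_commutes σ L₂ y).symm
  let Φ : (L ≃ₐ[K] L) →* G₁ × G₂ :=
    (r₁.symm.toMonoidHom.comp R₁).prod (r₂.symm.toMonoidHom.comp R₂)
  have hΦ₁ : ∀ σ : L ≃ₐ[K] L, r₁ (Φ σ).1 = R₁ σ := fun σ => r₁.apply_symm_apply _
  have hΦ₂ : ∀ σ : L ≃ₐ[K] L, r₂ (Φ σ).2 = R₂ σ := fun σ => r₂.apply_symm_apply _
  have hΦ : Function.Injective Φ := by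
    intro σ τ hst
    have h1 : R₁ σ = R₁ τ := by rw [← hΦ₁, ← hΦ₁, hst]
    have h2 : R₂ σ = R₂ τ := by rw [← hΦ₂, ← hΦ₂, hst]
    let E : IntermediateField K L :=
      (AlgHom.equalizer σ.toAlgHom τ.toAlgHom).toIntermediateField (fun x hx => by
        have hx' : σ x = τ x := hx
        show σ x⁻¹ = τ x⁻¹
        rw [map_inv₀, map_inv₀, hx'])
    have hE : ∀ x, x ∈ E ↔ σ x = τ x := fun x => Iff.rfl
    have h3 : j₁.fieldRange ⊔ j₂.fieldRange ≤ E := by
      refine sup_le ?_ ?_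
      · rintro _ ⟨y, rfl⟩
        exact (hE _).2 ((hR₁ σ y).trans ((congrArg (fun f => j₁ (f y)) h1).trans (hR₁ τ y).symm))
      · rintro _ ⟨y, rfl⟩
        exact (hE _).2 ((hR₂ σ y).trans ((congrArg (fun f => j₂ (f y)) h2).trans (hR₂ τ y).symm))
    rw [hgen] at h3
    exact AlgEquiv.ext fun x => (hE x).1 (h3 (IntermediateField.mem_top))
  let e : (L ≃ₐ[K] L) ≃* Φ.range := MonoidHom.ofInjective hΦ
  have he : ∀ σ : L ≃ₐ[K] L, ((e σ : Φ.range) : G₁ × G₂) = Φ σ := fun σ => rfl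
  have he' : ∀ γ : Φ.range, Φ (e.symm γ) = γ := fun γ => by
    rw [← he, MulEquiv.apply_symm_apply]
  let S : (L ≃ₐ[K] L) →* (L ≃ₐ[k] L) := AlgEquiv.restrictScalarsHom k
  have hS : ∀ (σ : L ≃ₐ[K] L) (y : L), S σ y = σ y := fun σ y => rfl
  refine ⟨Φ.range, S.comp e.symm.toMonoidHom, ?_, ?_, ?_, ?_, ?_, ?_, ?_⟩
  · exact (AlgEquiv.restrictScalarsHom_injective k).comp e.symm.injective
  · intro γ y
    show e.symm γ (j₁ y) = _
    rw [hR₁, ← hΦ₁, he']
  · intro γ y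
    show e.symm γ (j₂ y) = _
    rw [hR₂, ← hΦ₂, he']
  · intro g
    refine ⟨e ((r₁ g).liftNormal L), r₁.injective ?_⟩
    rw [he, hΦ₁]
    ext y
    apply j₁.toRingHom.injective
    exact (hR₁ _ _).symm.trans ((r₁ g).liftNormal_commutes L y)
  · intro g
    refine ⟨e ((r₂ g).liftNormal L), r₂.injective ?_⟩
    rw [he, hΦ₂]
    ext y
    apply j₂.toRingHom.injective
    exact (hR₂ _ _).symm.trans ((r₂ g).liftNormal_commutes L y)
  · intro z hz
    have : IsGalois L₁ L := IsGalois.tower_top_of_isGalois K L₁ L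
    obtain ⟨y, hy⟩ := (InfiniteGalois.mem_range_algebraMap_iff_fixed (k := L₁) z).2 (by
      intro σ
      have h1 := hz (e (σ.restrictScalars K)) (by
        apply r₁.injective
        rw [he, hΦ₁, map_one]
        ext y
        apply j₁.toRingHom.injective
        refine (hR₁ _ _).symm.trans ?_
        exact σ.commutes y)
      have h2 : (e.symm (e (σ.restrictScalars K))) z = z := h1
      rw [MulEquiv.symm_apply_apply] at h2
      exact h2)
    exact ⟨y, hy.symm⟩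
  · intro z hz
    have : IsGalois L₂ L := IsGalois.tower_top_of_isGalois K L₂ L
    obtain ⟨y, hy⟩ := (InfiniteGalois.mem_range_algebraMap_iff_fixed (k := L₂) z).2 (by
      intro σ
      have h1 := hz (e (σ.restrictScalars K)) (by
        apply r₂.injective
        rw [he, hΦ₂, map_one]
        ext y
        apply j₂.toRingHom.injective
        refine (hR₂ _ _).symm.trans ?_
        exact σ.commutes y)
      have h2 : (e.symm (e (σ.restrictScalars K))) z = z := h1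
      rw [MulEquiv.symm_apply_apply] at h2
      exact h2)
    exact ⟨y, hy.symm⟩

end Pool.CND.CMAx

namespace Pool.CND

open CMAx

theorem cma_thm : S_CMA := by
  intro k L₁ L₂ G₁ G₂ _ _ _ _ _ _ _ _ _ ρ₁ ρ₂ x₁ x₂ ι₁ ι₂ A h₁ h₂ hι₁ hι₂
  obtain ⟨u₁, hu₁⟩ := exists_hom x₁ (transcendental_aeval_iff.1 h₁.trans).1
  obtain ⟨u₂, hu₂⟩ := exists_hom x₂ (transcendental_aeval_iff.1 h₂.trans).1
  obtain ⟨v₁, hv₁⟩ := exists_hom (Polynomial.aeval x₁ A) h₁.trans
  obtain ⟨v₂, hv₂⟩ := exists_hom (Polynomial.aeval x₂ A) h₂.trans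
  obtain ⟨w, hw⟩ := exists_hom (k := k) (Polynomial.aeval (RatFunc.X : RatFunc k) A) (by
    intro halg
    have h := halg.algHom u₁
    rw [← Polynomial.aeval_algHom_apply, hu₁] at h
    exact h₁.trans h)
  have hw₁ : u₁.comp w = v₁ := hom_ext _ _ (by
    rw [AlgHom.comp_apply, hw, hv₁, ← Polynomial.aeval_algHom_apply, hu₁])
  have hw₂ : u₂.comp w = v₂ := hom_ext _ _ (by
    rw [AlgHom.comp_apply, hw, hv₂, ← Polynomial.aeval_algHom_apply, hu₂])
  let a₁ : Algebra (RatFunc k) L₁ := v₁.toRingHom.toAlgebra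
  let a₂ : Algebra (RatFunc k) L₂ := v₂.toRingHom.toAlgebra
  have t₁ : IsScalarTower k (RatFunc k) L₁ :=
    IsScalarTower.of_algebraMap_eq fun c => (v₁.commutes c).symm
  have t₂ : IsScalarTower k (RatFunc k) L₂ :=
    IsScalarTower.of_algebraMap_eq fun c => (v₂.commutes c).symm
  have hmem₁ : ∀ x : L₁, x ∈ IntermediateField.adjoin k {Polynomial.aeval x₁ A} ↔
      ∃ c : RatFunc k, v₁ c = x := by
    intro x
    rw [← hv₁, ← range_hom]
    exact Iff.rfl
  have hmem₂ : ∀ x : L₂, x ∈ IntermediateField.adjoin k {Polynomial.aeval x₂ A} ↔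
      ∃ c : RatFunc k, v₂ c = x := by
    intro x
    rw [← hv₂, ← range_hom]
    exact Iff.rfl
  obtain ⟨g₁, f₁, r₁, hr₁⟩ := gal ρ₁ (RatFunc k) h₁.inj (fun x => (h₁.fixed x).trans (hmem₁ x))
  obtain ⟨g₂, f₂, r₂, hr₂⟩ := gal ρ₂ (RatFunc k) h₂.inj (fun x => (h₂.fixed x).trans (hmem₂ x))
  let ψ : L₁ →+* AlgebraicClosure L₁ := algebraMap L₁ (AlgebraicClosure L₁)
  obtain ⟨j, hj⟩ := exists_emb (Ω := AlgebraicClosure L₁) u₂.toRingHom (fun y => by
    have h : (v₂ : RatFunc k →+* L₂).IsIntegralElem y :=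
      Algebra.IsIntegral.isIntegral (R := RatFunc k) y
    rw [← hw₂] at h
    exact RingHom.isIntegralElem.of_comp (f := w.toRingHom) (g := u₂.toRingHom) h)
    (ψ.comp u₁.toRingHom)
  have hj' : ∀ c, j (u₂ c) = ψ (u₁ c) := fun c => congrArg (fun f => f c) hj
  have hjv : ∀ c, j (v₂ c) = ψ (v₁ c) := by
    intro c
    rw [← hw₁, ← hw₂]
    exact hj' (w c)
  -- the embeddings over `k(t)`
  let i₁ : L₁ →ₐ[RatFunc k] AlgebraicClosure L₁ := IsScalarTower.toAlgHom (RatFunc k) L₁ _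
  let i₂ : L₂ →ₐ[RatFunc k] AlgebraicClosure L₁ := { j with commutes' := fun c => hjv c }
  have gi₁ : IsGalois (RatFunc k) i₁.fieldRange :=
    IsGalois.of_algEquiv (AlgEquiv.ofInjectiveField i₁)
  have gi₂ : IsGalois (RatFunc k) i₂.fieldRange :=
    IsGalois.of_algEquiv (AlgEquiv.ofInjectiveField i₂)
  have gi : IsGalois (RatFunc k) ↥(i₁.fieldRange ⊔ i₂.fieldRange) := inferInstance
  let j₁ : L₁ →ₐ[RatFunc k] ↥(i₁.fieldRange ⊔ i₂.fieldRange) :=
    (IntermediateField.inclusion le_sup_left).comp (AlgEquiv.ofInjectiveField i₁).toAlgHom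
  let j₂ : L₂ →ₐ[RatFunc k] ↥(i₁.fieldRange ⊔ i₂.fieldRange) :=
    (IntermediateField.inclusion le_sup_right).comp (AlgEquiv.ofInjectiveField i₂).toAlgHom
  have hj₁ : ∀ y, (j₁ y : AlgebraicClosure L₁) = i₁ y := fun y => rfl
  have hj₂ : ∀ y, (j₂ y : AlgebraicClosure L₁) = i₂ y := fun y => rfl
  have hgen : j₁.fieldRange ⊔ j₂.fieldRange = ⊤ := by
    apply IntermediateField.map_injective (IntermediateField.val _)
    rw [IntermediateField.map_sup, AlgHom.map_fieldRange, AlgHom.map_fieldRange,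
      ← AlgHom.fieldRange_eq_map, IntermediateField.fieldRange_val]
    rfl
  obtain ⟨Γ, ρ, hρ, hρ₁, hρ₂, hs₁, hs₂, hf₁, hf₂⟩ := core (k := k) j₁ j₂ r₁ r₂ hgen
  have hx : j₁ x₁ = j₂ x₂ := by
    apply Subtype.ext
    rw [hj₁, hj₂, ← hu₁, ← hu₂]
    exact (hj' RatFunc.X).symm
  refine ⟨↥(i₁.fieldRange ⊔ i₂.fieldRange), inferInstance, inferInstance, j₁.restrictScalars k,
    j₂.restrictScalars k, Γ, ρ, hx, hρ, ?_, ?_, ?_, ?_⟩
  · intro z
    have hmap : IntermediateField.adjoin k {j₁.restrictScalars k (Polynomial.aeval x₁ A)} =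
        (IntermediateField.adjoin k {Polynomial.aeval x₁ A}).map (j₁.restrictScalars k) := by
      rw [IntermediateField.adjoin_map, Set.image_singleton]
    rw [hmap, IntermediateField.mem_map]
    constructor
    · intro h
      obtain ⟨y, rfl⟩ := hf₁ z (fun γ _ => h γ)
      refine ⟨y, (h₁.fixed y).1 (fun g => ?_), rfl⟩
      obtain ⟨γ, hγ⟩ := hs₁ g
      have h2 := h γ
      rw [hρ₁, hr₁, hγ] at h2
      exact j₁.toRingHom.injective h2
    · rintro ⟨y, hy, rfl⟩ γ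
      refine (hρ₁ γ y).trans ?_
      rw [hr₁, (h₁.fixed y).2 hy]
      rfl
  · intro γ
    have e₁ : ρ γ (j₁ x₁) = j₁ x₁ + algebraMap k _ (ι₁ (γ : G₁ × G₂).1) := by
      rw [hρ₁, hr₁, hι₁, map_add]
      exact congrArg _ ((j₁.restrictScalars k).commutes _)
    have e₂ : ρ γ (j₂ x₂) = j₂ x₂ + algebraMap k _ (ι₂ (γ : G₁ × G₂).2) := by
      rw [hρ₂, hr₂, hι₂, map_add]
      exact congrArg _ ((j₂.restrictScalars k).commutes _)
    rw [hx, e₂] at e₁
    exact ((algebraMap k _).injective (add_left_cancel e₁)).symm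
  · refine ⟨hs₁, ?_, hf₁⟩
    intro γ y
    refine (hρ₁ γ y).trans ?_
    rw [hr₁]
    rfl
  · refine ⟨hs₂, ?_, hf₂⟩
    intro γ y
    refine (hρ₂ γ y).trans ?_
    rw [hr₂]
    rfl

end Pool.CND
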